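import Pool.Agent.Helper92.RK.Defs

set_option autoImplicit false

/-!
# Part LLL: the Lovász local lemma for terms
-/

namespace Pool.Agent.Helper99.RK.LLL

open Finset Pool.Agent.Helper92.RK

variable {n : ℕ}

theorem pr_mono {E E' : (Fin n → Bool) → Prop} (h : ∀ x, E x → E' x) : pr E ≤ pr E' := by
  classical
  unfold pr
  apply div_le_div_of_nonneg_right _ (by positivity)
  exact_mod_cast Finset.card_le_card (Finset.monotone_filter_right _ (fun x _ hx => h x hx))

theorem pr_nonneg (E : (Fin n → Bool) → Prop) : 0 ≤ pr E := by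
  unfold pr
  positivity

theorem pr_split (E E' : (Fin n → Bool) → Prop) :
    pr E = pr (fun x => E' x ∧ E x) + pr (fun x => ¬ E' x ∧ E x) := by
  classical
  unfold pr
  rw [← add_div]
  congr 1
  have h := Finset.card_filter_add_card_filter_not (s := univ.filter E) E'
  rw [Finset.filter_filter, Finset.filter_filter] at h
  rw [← h]
  push_cast
  congr 3
  · ext x; simp [and_comm]
  · ext x; simp [and_comm]

theorem pr_true (E : (Fin n → Bool) → Prop) (h : ∀ x, E x) : pr E = 1 := by
  classical
  unfold pr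
  rw [Finset.filter_true_of_mem (fun x _ => h x)]
  simp

theorem dep_sat (T : Tm n) : Dep (Sat T) (vr T) := by
  intro x y h
  unfold Sat
  constructor
  · intro hx l hl
    rw [← h l.1 (Finset.mem_image_of_mem _ hl)]
    exact hx l hl
  · intro hx l hl
    rw [h l.1 (Finset.mem_image_of_mem _ hl)]
    exact hx l hl

theorem dep_avoid {ι : Type} (J : Finset ι) (R : ι → Tm n) :
    Dep (Avoid J R) (J.biUnion fun b => vr (R b)) := by
  intro x y h
  unfold Avoid
  constructor
  · intro hx b hb hs
    exact hx b hb ((dep_sat (R b) x y (fun i hi => h i (Finset.mem_biUnion.2 ⟨b, hb, hi⟩))).2 hs)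
  · intro hx b hb hs
    exact hx b hb ((dep_sat (R b) x y (fun i hi => h i (Finset.mem_biUnion.2 ⟨b, hb, hi⟩))).1 hs)

theorem main (hI : S_IND) (hS : S_SAT) : S_LLL := by
  classical
  intro n ι s R w hcon hw hcond
  -- one step
  have step : ∀ (J : Finset ι) (c : ι),
      pr (fun x => Sat (R c) x ∧ Avoid J R x) ≤ w c * pr (Avoid J R) →
      (1 - w c) * pr (Avoid J R) ≤ pr (Avoid (insert c J) R) := by
    intro J c h
    have h1 := pr_split (Avoid J R) (Sat (R c))
    have h2 : pr (fun x => ¬ Sat (R c) x ∧ Avoid J R x) ≤ pr (Avoid (insert c J) R) := by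
      apply pr_mono
      intro x hx b hb
      rcases Finset.mem_insert.1 hb with rfl | hb
      · exact hx.1
      · exact hx.2 b hb
    nlinarith
  -- adding many elements
  have key : ∀ (m : ℕ) (J : Finset ι), J.card = m → J ⊆ s → ∀ b ∈ s, b ∉ J →
      pr (fun x => Sat (R b) x ∧ Avoid J R x) ≤ w b * pr (Avoid J R) := by
    intro m
    induction m using Nat.strong_induction_on with
    | _ m ih =>
    intro J hJm hJs b hb hbJ
    set J1 := J.filter (fun c => ¬ Disjoint (vr (R b)) (vr (R c))) with hJ1
    set J2 := J.filter (fun c => Disjoint (vr (R b)) (vr (R c))) with hJ2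
    have hJ1s : J1 ⊆ J := Finset.filter_subset _ _
    have hJ2s : J2 ⊆ J := Finset.filter_subset _ _
    have hun : J1 ∪ J2 = J := by
      rw [hJ1, hJ2, Finset.union_comm]
      exact Finset.filter_union_filter_not_eq _ _
    -- numerator
    have n1 : pr (fun x => Sat (R b) x ∧ Avoid J R x) ≤ pr (fun x => Sat (R b) x ∧ Avoid J2 R x) := by
      apply pr_mono
      intro x hx
      exact ⟨hx.1, fun c hc => hx.2 c (hJ2s hc)⟩
    have n2 : pr (fun x => Sat (R b) x ∧ Avoid J2 R x) = (1 / 2 : ℝ) ^ (R b).card * pr (Avoid J2 R) := by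
      rw [hI n _ _ (vr (R b)) (J2.biUnion fun b => vr (R b)) _ (dep_sat _) (dep_avoid _ _),
        hS n _ (hcon b hb)]
      rw [Finset.disjoint_biUnion_right]
      intro c hc
      exact (Finset.mem_filter.1 hc).2
    have n3 : (∏ c ∈ s.filter (fun c => c ≠ b ∧ ¬ Disjoint (vr (R b)) (vr (R c))), (1 - w c)) ≤
        ∏ c ∈ J1, (1 - w c) := by
      have hsub : J1 ⊆ s.filter (fun c => c ≠ b ∧ ¬ Disjoint (vr (R b)) (vr (R c))) := by
        intro c hc
        refine Finset.mem_filter.2 ⟨hJs (hJ1s hc), ?_, (Finset.mem_filter.1 hc).2⟩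
        rintro rfl
        exact hbJ (hJ1s hc)
      rw [← Finset.prod_sdiff hsub]
      apply mul_le_of_le_one_left
      · apply Finset.prod_nonneg
        intro c hc
        linarith [(hw c (hJs (hJ1s hc))).2]
      · apply Finset.prod_le_one
        · intro c hc
          linarith [(hw c (Finset.mem_filter.1 (Finset.mem_sdiff.1 hc).1).1).2]
        · intro c hc
          linarith [(hw c (Finset.mem_filter.1 (Finset.mem_sdiff.1 hc).1).1).1]
    -- denominators
    have d1 : ∀ K : Finset ι, K ⊆ J1 →
        (∏ c ∈ K, (1 - w c)) * pr (Avoid J2 R) ≤ pr (Avoid (K ∪ J2) R) := by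
      intro K
      induction K using Finset.induction_on with
      | empty => intro _; simp
      | insert c K hc ihK =>
        intro hK
        have hcJ1 : c ∈ J1 := hK (Finset.mem_insert_self _ _)
        have hKJ1 : K ⊆ J1 := fun x hx => hK (Finset.mem_insert_of_mem hx)
        have h1 := ihK hKJ1
        have hcn : c ∉ K ∪ J2 := by
          intro h
          rcases Finset.mem_union.1 h with h | h
          · exact hc h
          · exact (Finset.mem_filter.1 hcJ1).2 (Finset.mem_filter.1 h).2
        have hsub : K ∪ J2 ⊆ J := Finset.union_subset (hKJ1.trans hJ1s) hJ2s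
        have hlt : (K ∪ J2).card < m := by
          rw [← hJm]
          apply Finset.card_lt_card
          refine ⟨hsub, fun h => hcn (h (hJ1s hcJ1))⟩
        have h2 := step (K ∪ J2) c (ih _ hlt (K ∪ J2) rfl (hsub.trans hJs) c (hJs (hJ1s hcJ1)) hcn)
        rw [Finset.prod_insert hc, Finset.insert_union]
        have hw1 : 0 ≤ 1 - w c := by linarith [(hw c (hJs (hJ1s hcJ1))).2]
        calc (1 - w c) * (∏ c ∈ K, (1 - w c)) * pr (Avoid J2 R)
            = (1 - w c) * ((∏ c ∈ K, (1 - w c)) * pr (Avoid J2 R)) := by ring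
          _ ≤ (1 - w c) * pr (Avoid (K ∪ J2) R) := mul_le_mul_of_nonneg_left h1 hw1
          _ ≤ _ := h2
    have d2 := d1 J1 (le_refl _)
    rw [hun] at d2
    have hwb := hw b hb
    have hc := hcond b hb
    have hp2 := pr_nonneg (Avoid J2 R)
    calc pr (fun x => Sat (R b) x ∧ Avoid J R x) ≤ (1 / 2 : ℝ) ^ (R b).card * pr (Avoid J2 R) :=
          n1.trans n2.le
      _ ≤ (w b * ∏ c ∈ J1, (1 - w c)) * pr (Avoid J2 R) := by
          apply mul_le_mul_of_nonneg_right _ hp2
          exact hc.trans (mul_le_mul_of_nonneg_left n3 hwb.1)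
      _ = w b * ((∏ c ∈ J1, (1 - w c)) * pr (Avoid J2 R)) := by ring
      _ ≤ w b * pr (Avoid J R) := mul_le_mul_of_nonneg_left d2 hwb.1
  -- conclusion
  have fin : ∀ J : Finset ι, J ⊆ s → ∏ b ∈ J, (1 - w b) ≤ pr (Avoid J R) := by
    intro J
    induction J using Finset.induction_on with
    | empty =>
      intro _
      rw [pr_true (Avoid ∅ R) (fun x b hb => absurd hb (Finset.notMem_empty b))]
      simp
    | insert c J hc ihJ =>
      intro hJ
      have hcs : c ∈ s := hJ (Finset.mem_insert_self _ _)
      have hJs : J ⊆ s := fun x hx => hJ (Finset.mem_insert_of_mem hx)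
      have h1 := ihJ hJs
      have h2 := step J c (key _ J rfl hJs c hcs hc)
      rw [Finset.prod_insert hc]
      have hw1 : 0 ≤ 1 - w c := by linarith [(hw c hcs).2]
      exact (mul_le_mul_of_nonneg_left h1 hw1).trans h2
  exact fin s (le_refl _)

end Pool.Agent.Helper99.RK.LLL
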